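import Mathlib
import Pool.Agent.TH923.DM.Defs
import Pool.Agent.W277.UB.Gen

/-!
# Places of a finite separable extension of `k(T)` with a product formula
-/

set_option autoImplicit false

namespace Pool.Agent.TH412.DM

open IsDedekindDomain HeightOneSpectrum WithZero Polynomial
open Pool.Agent.W277.UB

universe w

/-- The valuations of `K` above a principal ideal domain `R` with fraction field `F`. -/
structure Chart (R F K : Type*) [CommRing R] [Field F] [Algebra R F] [Field K] [Algebra F K]
    (l : F → ℤ) where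
  Pl : Type w
  ord : Pl → K → ℤ
  wt : Pl → ℤ
  wt_one : ∀ v, 1 ≤ wt v
  ord_mul : ∀ v x y, x ≠ 0 → y ≠ 0 → ord v (x * y) = ord v x + ord v y
  ord_add : ∀ v x y (m : ℤ), x ≠ 0 → y ≠ 0 → x + y ≠ 0 → m ≤ ord v x → m ≤ ord v y →
    m ≤ ord v (x + y)
  ord_unit : ∀ v (u : R), IsUnit u → ord v (algebraMap F K (algebraMap R F u)) = 0
  fin : ∀ x, x ≠ 0 → {v | ord v x ≠ 0}.Finite
  sum : ∀ x, x ≠ 0 → ∀ T : Finset Pl, (∀ v, v ∉ T → ord v x = 0) →
    ∑ v ∈ T, wt v * ord v x = l (Algebra.norm F x)
  nonneg : ∀ v (r : R), r ≠ 0 → 0 ≤ ord v (algebraMap F K (algebraMap R F r))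
  exists_pos : ∀ v, ∃ r : R, r ≠ 0 ∧ 0 < ord v (algebraMap F K (algebraMap R F r))

/-- Existence of chart data. -/
lemma exists_chart (R F : Type*) (K : Type w) [CommRing R] [IsDomain R]
    [IsPrincipalIdealRing R] [Field F] [Algebra R F] [IsFractionRing R F] [Field K] [Algebra F K]
    [FiniteDimensional F K] [Algebra.IsSeparable F K] (l : F → ℤ)
    (hl : AddFn R l) (hpos : ∀ r : R, r ≠ 0 → ¬ IsUnit r → 1 ≤ l (algebraMap R F r)) :
    Nonempty (Chart.{w} R F K l) := by
  let _ : Algebra R K := ((algebraMap F K).comp (algebraMap R F)).toAlgebra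
  have : IsScalarTower R F K := IsScalarTower.of_algebraMap_eq' rfl
  let S := integralClosure R K
  have : IsFractionRing S K := IsIntegralClosure.isFractionRing_of_finite_extension R F K S
  have : IsDedekindDomain S := IsIntegralClosure.isDedekindDomain R F K S
  have : Module.Finite R S := IsIntegralClosure.finite R F K S
  have hinjRK : Function.Injective (algebraMap R K) :=
    (algebraMap F K).injective.comp (IsFractionRing.injective R F)
  have hinjRS : Function.Injective (algebraMap R S) := by
    intro a b hab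
    apply hinjRK
    rw [IsScalarTower.algebraMap_apply R S K, IsScalarTower.algebraMap_apply R S K, hab]
  have : FaithfulSMul R S := (faithfulSMul_iff_algebraMap_injective R S).mpr hinjRS
  have : Module.IsTorsionFree R S := inferInstance
  have hRS : ∀ r : R, algebraMap F K (algebraMap R F r) = algebraMap S K (algebraMap R S r) := by
    intro r
    rw [← IsScalarTower.algebraMap_apply R S K]
    rfl
  have hne : ∀ r : R, r ≠ 0 → algebraMap R S r ≠ 0 := fun r hr h =>
    hr (hinjRS (by rw [h, map_zero]))
  exact ⟨{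
    Pl := HeightOneSpectrum S
    ord := fun P x => ordP P x
    wt := fun P => wtI R l P.asIdeal
    wt_one := fun P => wtI_pos hpos P
    ord_mul := fun P x y hx hy => ordP_mul P hx hy
    ord_add := fun P x y m hx hy hxy h1 h2 => ordP_add P m hx hy hxy h1 h2
    ord_unit := by
      intro P u hu
      have h1 := ordP_unit (K := K) P (hu.map (algebraMap R S)).unit
      rw [IsUnit.unit_spec, ← IsScalarTower.algebraMap_apply R S K] at h1
      exact h1
    fin := fun x hx => finite_ordP x hx
    sum := fun x hx T hT => sum_ordP hl x hx T hT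
    nonneg := by
      intro P r hr
      rw [hRS]
      exact ordP_alg_nonneg P (hne r hr)
    exists_pos := by
      intro P
      have h1 : P.asIdeal.comap (algebraMap R S) ≠ ⊥ :=
        Ideal.IsIntegral.comap_ne_bot R P.ne_bot
      obtain ⟨r, hr, hr0⟩ := Submodule.exists_mem_ne_zero_of_ne_bot h1
      refine ⟨r, hr0, ?_⟩
      rw [hRS]
      have h2 : ((1 : ℕ) : ℤ) ≤ ordP P (algebraMap S K (algebraMap R S r)) := by
        rw [le_ordP_alg_iff P (hne r hr0), pow_one]
        exact hr
      push_cast at h2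
      linarith }⟩

section

variable {k : Type w} {L : Type w} [Field k] [Field L] [Algebra (RatFunc k) L]

lemma chart_one {R F K : Type*} [CommRing R] [Field F] [Algebra R F] [Field K] [Algebra F K]
    {l : F → ℤ} (c : Chart.{w} R F K l) (v : c.Pl) : c.ord v 1 = 0 := by
  have h := c.ord_mul v 1 1 one_ne_zero one_ne_zero
  rw [one_mul] at h
  linarith

lemma chart_pow {R F K : Type*} [CommRing R] [Field F] [Algebra R F] [Field K] [Algebra F K]
    {l : F → ℤ} (c : Chart.{w} R F K l) (v : c.Pl) {x : K} (hx : x ≠ 0) (n : ℕ) :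
    c.ord v (x ^ n) = n * c.ord v x := by
  induction n with
  | zero => simp [chart_one]
  | succ n ih =>
    rw [pow_succ, c.ord_mul v _ _ (pow_ne_zero n hx) hx, ih]
    push_cast
    ring

lemma chart_inv {R F K : Type*} [CommRing R] [Field F] [Algebra R F] [Field K] [Algebra F K]
    {l : F → ℤ} (c : Chart.{w} R F K l) (v : c.Pl) {x : K} (hx : x ≠ 0) :
    c.ord v x⁻¹ = - c.ord v x := by
  have h := c.ord_mul v x x⁻¹ hx (inv_ne_zero hx)
  rw [mul_inv_cancel₀ hx, chart_one] at h
  linarith

/-- At a place of the affine chart some `X - a` is positive. -/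
lemma exists_root_pos [IsAlgClosed k] (c : Chart.{w} k[X] (RatFunc k) L (fun x => x.intDegree))
    (v : c.Pl) : ∃ a : k, 0 < c.ord v (algebraMap (RatFunc k) L (RatFunc.X - RatFunc.C a)) := by
  obtain ⟨r, hr0, hr⟩ := c.exists_pos v
  have key : ∀ n : ℕ, ∀ r : k[X], r.natDegree = n → r ≠ 0 →
      0 < c.ord v (algebraMap (RatFunc k) L (algebraMap k[X] (RatFunc k) r)) →
      ∃ a : k, 0 < c.ord v (algebraMap (RatFunc k) L (RatFunc.X - RatFunc.C a)) := by
    intro n
    induction n with
    | zero =>
      intro r hn h0 hpos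
      obtain ⟨a, rfl⟩ := natDegree_eq_zero.mp hn
      have ha : a ≠ 0 := by
        rintro rfl
        simp at h0
      have := c.ord_unit v (C a) (isUnit_C.mpr (isUnit_iff_ne_zero.mpr ha))
      omega
    | succ n ih =>
      intro r hn h0 hpos
      obtain ⟨a, ha⟩ := IsAlgClosed.exists_root r (by
        rw [degree_eq_natDegree h0, hn]
        exact_mod_cast Nat.succ_ne_zero n)
      obtain ⟨q, hq⟩ := dvd_iff_isRoot.mpr ha
      have hq0 : q ≠ 0 := by
        rintro rfl
        simp at hq
        exact h0 hq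
      have hxa : (X - C a : k[X]) ≠ 0 := X_sub_C_ne_zero a
      have hdeg : q.natDegree = n := by
        have h1 := natDegree_mul hxa hq0
        rw [← hq, hn, natDegree_X_sub_C] at h1
        omega
      have hinj : Function.Injective (fun f : k[X] =>
          algebraMap (RatFunc k) L (algebraMap k[X] (RatFunc k) f)) :=
        (algebraMap (RatFunc k) L).injective.comp (RatFunc.algebraMap_injective k)
      have hz : ∀ f : k[X], f ≠ 0 →
          algebraMap (RatFunc k) L (algebraMap k[X] (RatFunc k) f) ≠ 0 := by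
        intro f hf h
        exact hf (hinj (by simpa using h))
      have h2 : c.ord v (algebraMap (RatFunc k) L (algebraMap k[X] (RatFunc k) r)) =
          c.ord v (algebraMap (RatFunc k) L (algebraMap k[X] (RatFunc k) (X - C a))) +
          c.ord v (algebraMap (RatFunc k) L (algebraMap k[X] (RatFunc k) q)) := by
        rw [hq, map_mul, map_mul, c.ord_mul v _ _ (hz _ hxa) (hz _ hq0)]
      by_cases h3 : 0 < c.ord v (algebraMap (RatFunc k) L
          (algebraMap k[X] (RatFunc k) (X - C a)))
      · refine ⟨a, ?_⟩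
        rw [map_sub, RatFunc.algebraMap_X, RatFunc.algebraMap_C] at h3
        exact h3
      · exact ih q hdeg hq0 (by omega)
  exact key _ r rfl hr0 hr

lemma X_ne : algebraMap (RatFunc k) L RatFunc.X ≠ 0 := by
  rw [Ne, map_eq_zero]
  exact RatFunc.X_ne_zero

lemma alg_ne {x : RatFunc k} (hx : x ≠ 0) : algebraMap (RatFunc k) L x ≠ 0 := by
  rw [Ne, map_eq_zero]
  exact hx

/-- In the chart at infinity, an element of degree `0` has order `0`. -/
lemma inf_zero (c : Chart.{w} (InfRing k) (RatFunc k) L (fun x => - x.intDegree)) (v : c.Pl)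
    (x : RatFunc k) (hx : x ≠ 0) (hd : x.intDegree = 0) :
    c.ord v (algebraMap (RatFunc k) L x) = 0 := by
  have h1 : x ∈ InfRing k := by
    rw [mem_infRing]
    exact Or.inr hd.le
  have h2 : x⁻¹ ∈ InfRing k := by
    rw [mem_infRing, RatFunc.intDegree_inv, hd]
    exact Or.inr (by simp)
  have hu : IsUnit (⟨x, h1⟩ : InfRing k) := by
    refine IsUnit.of_mul_eq_one ⟨_, h2⟩ ?_
    apply Subtype.ext
    rw [MulMemClass.coe_mul]
    exact mul_inv_cancel₀ hx
  exact c.ord_unit v _ hu

lemma inf_neg (c : Chart.{w} (InfRing k) (RatFunc k) L (fun x => - x.intDegree)) (v : c.Pl) :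
    c.ord v (algebraMap (RatFunc k) L RatFunc.X) < 0 := by
  obtain ⟨r, hr0, hr⟩ := c.exists_pos v
  rw [ValuationSubring.algebraMap_apply] at hr
  have hr0' : (r : RatFunc k) ≠ 0 := by simpa using hr0
  have h1 := (mem_infRing k).mp r.2
  rw [or_iff_right hr0'] at h1
  obtain ⟨m, hm⟩ := Int.eq_ofNat_of_zero_le (show 0 ≤ -(r : RatFunc k).intDegree by linarith)
  have hX : (RatFunc.X : RatFunc k) ≠ 0 := RatFunc.X_ne_zero
  have hXm : (RatFunc.X : RatFunc k) ^ m ≠ 0 := pow_ne_zero _ hX
  have hdX : ∀ m : ℕ, ((RatFunc.X : RatFunc k) ^ m).intDegree = m := by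
    intro m
    induction m with
    | zero => simp
    | succ m ih =>
      rw [pow_succ, RatFunc.intDegree_mul (pow_ne_zero _ hX) hX, ih, RatFunc.intDegree_X]
      push_cast
      ring
  have h2 : ((r : RatFunc k) * RatFunc.X ^ m).intDegree = 0 := by
    rw [RatFunc.intDegree_mul hr0' hXm, hdX]
    linarith
  have h3 := inf_zero c v _ (mul_ne_zero hr0' hXm) h2
  rw [map_mul, c.ord_mul v _ _ (alg_ne hr0') (alg_ne hXm), map_pow, chart_pow c v X_ne] at h3
  by_contra hcon
  push Not at hcon
  have : (0 : ℤ) ≤ m * c.ord v (algebraMap (RatFunc k) L RatFunc.X) :=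
    mul_nonneg (Int.natCast_nonneg m) hcon
  linarith

end

open Pool.Agent.TH923.DM in
/-- The places of a finite separable extension of `k(T)`, `k` algebraically closed. -/
theorem lemPD : S_PD.{w} := by
  intro k _ _ L _ _ _ _
  classical
  obtain ⟨c1⟩ := exists_chart k[X] (RatFunc k) L (fun x => x.intDegree) (addFn_poly k)
    (pos_poly k)
  obtain ⟨c2⟩ := exists_chart (InfRing k) (RatFunc k) L (fun x => -x.intDegree) (addFn_inf k)
    (pos_inf k)
  have hX1 : ∀ v : c1.Pl, 0 ≤ c1.ord v (algebraMap (RatFunc k) L RatFunc.X) := by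
    intro v
    have := c1.nonneg v X X_ne_zero
    rwa [RatFunc.algebraMap_X] at this
  have hX2 : ∀ v : c2.Pl, c2.ord v (algebraMap (RatFunc k) L RatFunc.X) < 0 := inf_neg c2
  have hsum2 : ∀ T : Finset c2.Pl, (∀ v, v ∉ T → c2.ord v (algebraMap (RatFunc k) L RatFunc.X) = 0)
      → ∑ v ∈ T, c2.wt v * c2.ord v (algebraMap (RatFunc k) L RatFunc.X) =
        - (Module.finrank (RatFunc k) L : ℤ) := by
    intro T hT
    have h1 := c2.sum _ X_ne T hT
    rw [h1, Algebra.norm_algebraMap]
    have hdX : ∀ m : ℕ, ((RatFunc.X : RatFunc k) ^ m).intDegree = m := by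
      intro m
      induction m with
      | zero => simp
      | succ m ih =>
        rw [pow_succ, RatFunc.intDegree_mul (pow_ne_zero _ RatFunc.X_ne_zero) RatFunc.X_ne_zero,
          ih, RatFunc.intDegree_X]
        push_cast
        ring
    rw [hdX]
  have hfin2 : Finite c2.Pl := by
    have h1 := c2.fin _ (X_ne (k := k) (L := L))
    have h2 : {v | c2.ord v (algebraMap (RatFunc k) L RatFunc.X) ≠ 0} = Set.univ := by
      ext v
      simp [(hX2 v).ne]
    rw [h2] at h1
    exact Set.finite_univ_iff.mp h1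
  have hft := Fintype.ofFinite c2.Pl
  have hall := hsum2 Finset.univ (by simp)
  have hpos : 0 < Module.finrank (RatFunc k) L := Module.finrank_pos
  refine ⟨{
    Pl := c1.Pl ⊕ c2.Pl
    wt := Sum.elim c1.wt c2.wt
    u := Sum.elim c1.ord c2.ord
    wt_pos := ?_
    isOrd := ?_
    const := ?_
    fin := ?_
    prod := ?_
    cases := ?_
    exists_inf := ?_
    inf_bound := ?_ }⟩
  · rintro (v | v)
    · exact c1.wt_one v
    · exact c2.wt_one v
  · rintro (v | v)
    · exact ⟨c1.ord_mul v, fun x y hx hy hxy => c1.ord_add v x y _ hx hy hxy (min_le_left _ _)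
        (min_le_right _ _)⟩
    · exact ⟨c2.ord_mul v, fun x y hx hy hxy => c2.ord_add v x y _ hx hy hxy (min_le_left _ _)
        (min_le_right _ _)⟩
  · rintro (v | v) c hc
    · have h1 := c1.ord_unit v (C c) (isUnit_C.mpr (isUnit_iff_ne_zero.mpr hc))
      rw [RatFunc.algebraMap_C] at h1
      exact h1
    · apply inf_zero c2 v
      · simpa using hc
      · exact RatFunc.intDegree_C c
  · intro x hx
    have h1 : {v | Sum.elim c1.ord c2.ord v x ≠ 0} ⊆
        Sum.inl '' {v | c1.ord v x ≠ 0} ∪ Sum.inr '' {v | c2.ord v x ≠ 0} := by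
      rintro (v | v) hv
      · left
        exact ⟨v, hv, rfl⟩
      · right
        exact ⟨v, hv, rfl⟩
    exact (((c1.fin x hx).image _).union ((c2.fin x hx).image _)).subset h1
  · intro x hx T hT
    have h1 := c1.sum x hx T.toLeft (by
      intro v hv
      exact hT (Sum.inl v) (by simpa using hv))
    have h2 := c2.sum x hx T.toRight (by
      intro v hv
      exact hT (Sum.inr v) (by simpa using hv))
    rw [← Finset.toLeft_disjSum_toRight (u := T), Finset.sum_disjSum]
    simp only [Sum.elim_inl, Sum.elim_inr]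
    rw [h1, h2]
    ring
  · rintro (v | v)
    · exact Or.inl (exists_root_pos c1 v)
    · exact Or.inr (hX2 v)
  · by_contra hcon
    push Not at hcon
    have h1 : IsEmpty c2.Pl := ⟨fun v => absurd (hX2 v) (not_lt.mpr (hcon (Sum.inr v)))⟩
    rw [Finset.univ_eq_empty, Finset.sum_empty] at hall
    omega
  · intro T hT
    rw [← Finset.toLeft_disjSum_toRight (u := T), Finset.sum_disjSum]
    have h1 : T.toLeft = ∅ := by
      rw [Finset.eq_empty_iff_forall_notMem]
      intro v hv
      have h2 := hT (Sum.inl v) (by simpa using hv)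
      exact absurd h2 (not_lt.mpr (hX1 v))
    rw [h1, Finset.sum_empty, zero_add]
    simp only [Sum.elim_inr]
    have h3 : ∑ v ∈ T.toRight, c2.wt v * (- c2.ord v (algebraMap (RatFunc k) L RatFunc.X)) ≤
        ∑ v : c2.Pl, c2.wt v * (- c2.ord v (algebraMap (RatFunc k) L RatFunc.X)) := by
      apply Finset.sum_le_sum_of_subset_of_nonneg (Finset.subset_univ _)
      intro v _ _
      have h4 := c2.wt_one v
      have h5 := hX2 v
      exact mul_nonneg (by linarith) (by linarith)
    refine h3.trans ?_
    simp only [mul_neg, Finset.sum_neg_distrib, hall, neg_neg]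
    exact le_rfl

end Pool.Agent.TH412.DM

namespace Pool.Agent.TH923.DM

universe w

/-- The places of a finite separable extension of `k(T)`, `k` algebraically closed. -/
theorem lemPD : S_PD.{w} := Pool.Agent.TH412.DM.lemPD.{w}

end Pool.Agent.TH923.DM
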